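import Mathlib

/-!
# The integral of a power of the modulus over the unit disc
-/

set_option autoImplicit false

namespace Pool.Agent.Run7.h404.KC

open MeasureTheory Set

/-- the radial integral -/
theorem radial (p : ℝ) (hp : 0 < p) :
    ∫⁻ r in Ioi (0 : ℝ), (Iio (1 : ℝ)).indicator (fun r => ENNReal.ofReal (r ^ (p + 1))) r =
      ENNReal.ofReal (1 / (p + 2)) := by
  rw [lintegral_indicator measurableSet_Iio, Measure.restrict_restrict measurableSet_Iio]
  have hs : Iio (1 : ℝ) ∩ Ioi 0 = Ioo 0 1 := by
    ext x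
    simp [and_comm]
  rw [hs, ← ofReal_integral_eq_lintegral_ofReal]
  · rw [← integral_Ioc_eq_integral_Ioo, ← intervalIntegral.integral_of_le zero_le_one,
      integral_rpow (Or.inl (by linarith))]
    rw [Real.one_rpow, Real.zero_rpow (by linarith)]
    congr 1
    rw [sub_zero]
    congr 1
    ring
  · have h := (intervalIntegral.intervalIntegrable_rpow' (a := 0) (b := 1) (r := p + 1)
      (by linarith))
    rw [intervalIntegrable_iff_integrableOn_Ioo_of_le zero_le_one] at h
    exact h
  · refine (ae_restrict_iff' measurableSet_Ioo).2 (Filter.Eventually.of_forall fun x hx => ?_)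
    exact Real.rpow_nonneg hx.1.le _

theorem t_UP (p : ℝ) (hp : 0 < p) :
    ∫⁻ z in Metric.ball (0 : ℂ) 1, ‖z‖ₑ ^ p = ENNReal.ofReal (2 * Real.pi / (p + 2)) := by
  rw [← lintegral_indicator measurableSet_ball, ← Complex.lintegral_comp_polarCoord_symm]
  have hm : MeasurableSet (polarCoord.target : Set (ℝ × ℝ)) := by
    rw [polarCoord_target]
    exact measurableSet_Ioi.prod measurableSet_Ioo
  have h1 : ∀ q ∈ (polarCoord.target : Set (ℝ × ℝ)), ENNReal.ofReal q.1 •
      (Metric.ball (0 : ℂ) 1).indicator (fun z => ‖z‖ₑ ^ p) (Complex.polarCoord.symm q) =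
      (Iio (1 : ℝ)).indicator (fun r => ENNReal.ofReal (r ^ (p + 1))) q.1 * 1 := by
    intro q hq
    rw [polarCoord_target] at hq
    have hq0 : 0 < q.1 := hq.1
    have hn : ‖Complex.polarCoord.symm q‖ = q.1 := by
      rw [Complex.norm_polarCoord_symm, abs_of_pos hq0]
    rw [mul_one, smul_eq_mul]
    by_cases h : q.1 < 1
    · rw [indicator_of_mem (by rw [Metric.mem_ball, dist_zero_right, hn]; exact h),
        indicator_of_mem (show q.1 ∈ Iio (1 : ℝ) from h), ← ofReal_norm_eq_enorm, hn,
        ENNReal.ofReal_rpow_of_pos hq0, ← ENNReal.ofReal_mul hq0.le, Real.rpow_add_one hq0.ne',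
        mul_comm]
    · rw [indicator_of_notMem (by rw [Metric.mem_ball, dist_zero_right, hn]; exact h),
        indicator_of_notMem (show q.1 ∉ Iio (1 : ℝ) from h), mul_zero]
  rw [setLIntegral_congr_fun hm h1, polarCoord_target, Measure.volume_eq_prod,
    ← Measure.prod_restrict,
    lintegral_prod_mul (f := (Iio (1 : ℝ)).indicator (fun r => ENNReal.ofReal (r ^ (p + 1))))
      (g := fun _ : ℝ => (1 : ENNReal)) ?_ aemeasurable_const, radial p hp]
  · rw [lintegral_const, Measure.restrict_apply MeasurableSet.univ, univ_inter, Real.volume_Ioo,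
      one_mul, ← ENNReal.ofReal_mul (by positivity)]
    congr 1
    ring
  · apply Measurable.aemeasurable
    apply Measurable.indicator _ measurableSet_Iio
    fun_prop

end Pool.Agent.Run7.h404.KC
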